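import Pool.Agent.helper5.DH.Spec

set_option autoImplicit false

open Complex Metric Set Filter Topology MeasureTheory Pool.Agent.helper98.ILF Pool.Agent.helper16.Multibrot
open HY (UD T S hd UN RM VV SG Orb fz)

noncomputable section

namespace DH

/-- An injective holomorphic map from the disc into `V_k` has a small derivative at `0`. -/
lemma EN1_small {C₁ : ℝ} (hC₁ : 1 ≤ C₁)
    (hKO1 : ∀ (G : ℂ → ℂ) (a : ℂ) (r : ℝ), 0 < r → DifferentiableOn ℂ G (ball a r) →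
      InjOn G (ball a r) → ball (G a) (r * ‖deriv G a‖ / C₁) ⊆ G '' ball a r)
    {V : Set ℂ} {δ : ℝ} (hV : ∀ z : ℂ, ¬ ball z (δ / C₁) ⊆ V)
    {X : ℂ → ℂ} (hX : DifferentiableOn ℂ X UD) (hXi : InjOn X UD) (hXV : ∀ x ∈ UD, X x ∈ V) :
    ‖deriv X 0‖ < δ := by
  by_contra hcon
  push Not at hcon
  apply hV (X 0)
  intro z hz
  have h1 := hKO1 X 0 1 one_pos hX hXi
  have h2 : z ∈ ball (X 0) (1 * ‖deriv X 0‖ / C₁) := by
    rw [mem_ball] at hz ⊢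
    refine lt_of_lt_of_le hz ?_
    rw [one_mul]
    gcongr
  obtain ⟨x, hx, rfl⟩ := h1 h2
  exact hXV x hx

theorem EN1 (hLFT : LFT_stmt) (hPUL : PUL_stmt) (hNLI : NLI_stmt) (hINR : INR_stmt)
    (hKO0 : V3.KO0_stmt) (hKO1 : V3.KO1_stmt) : EN1_stmt := by
  intro n r M c Φ b μ hM hCL hTow hdis hint hcrit hμm hμb hinv hCST
  obtain ⟨C₁, hC₁, hKO1'⟩ := hKO1
  obtain ⟨K₁, hK₁, hL⟩ := hLFT M hM
  obtain ⟨K₀, hK₀, hP⟩ := hPUL
  have hC₁0 : (0 : ℝ) < C₁ := lt_of_lt_of_le one_pos hC₁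
  set K : ℝ := max K₀ K₁ with hK
  obtain ⟨ε, hε, hP⟩ := hP n hTow.hn K (le_max_left _ _)
  have hK0 : 0 < K := lt_of_lt_of_le (lt_of_lt_of_le one_pos hK₀) (le_max_left _ _)
  obtain ⟨δ, hδ, hcst⟩ := hCST K ε hK0 hε
  obtain ⟨k, hk⟩ := hINR n c hTow.hn hTow.hc hint (δ / C₁) (by positivity)
  have hUDo : IsOpen UD := isOpen_ball
  have h0 : (0 : ℂ) ∈ UD := mem_ball_self one_pos
  obtain ⟨m, X, Ψ, hX, hXi, hX0, hXV, hΨ, hΨi, hrel, hΨb, hΨd⟩ := hL n r c Φ b hCL hTow hdis hcrit k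
  have hXs : ‖deriv X 0‖ < δ := EN1_small hC₁ hKO1' (hk (k + 1) (Nat.le_succ k)) hX hXi hXV
  have hΦs : ‖deriv (Φ k) 0‖ < δ := by
    refine EN1_small hC₁ hKO1' (hk k le_rfl) (hTow.rm k).dif (hTow.rm k).inj ?_
    intro x hx
    rw [← (hTow.rm k).img]
    exact mem_image_of_mem _ hx
  have hX0' : 0 < ‖deriv X 0‖ := norm_pos_iff.mpr (hKO0 X UD hUDo hX hXi 0 h0)
  have hΦ0' : 0 < ‖deriv (Φ k) 0‖ :=
    norm_pos_iff.mpr (hKO0 (Φ k) UD hUDo (hTow.rm k).dif (hTow.rm k).inj 0 h0)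
  obtain ⟨e, he, hie⟩ := hcst _ hX0' hXs
  obtain ⟨e', he', hie'⟩ := hcst _ hΦ0' hΦs
  refine hP μ X Ψ ‖deriv (Φ k) 0‖ e e' hμm hμb hX hXi hX0 hΨ hΨi hΦ0' ?_ ?_ ?_ he he' hie hie'
  · intro y hy
    refine lt_of_lt_of_le (hΨb y hy) ?_
    gcongr
    exact le_max_right _ _
  · refine hΨd.trans ?_
    gcongr
    exact le_max_right _ _
  · have h1 := hNLI n c μ hTow.hn hμm hinv m X hX hXi
    filter_upwards [h1] with y hy hyU
    have h2 := hy hyU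
    have h3 : (fun x => (fz n c)^[m] (X x)) =ᶠ[𝓝 y] (fun x => Ψ (x ^ n)) := by
      filter_upwards [hUDo.mem_nhds hyU] with x hx using hrel x hx
    rw [h3.deriv_eq, hrel y hyU] at h2
    exact h2

end DH
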